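import Pool.Agent.Helper47.RFn.GoalsA

/-!
# Project RFn: packet RP2 (the dictionary of restriction)
-/

namespace Pool.Agent.Helper65.RFn

open Finset Pool.Agent.Helper47.RFn

section sums

variable {α β 𝕜 : Type*} [Fintype α] [Fintype β] [CommRing 𝕜]

theorem swap44 (f : α → α → α → α → β → β → β → β → 𝕜) :
    (∑ i, ∑ j, ∑ k, ∑ l, ∑ a, ∑ b, ∑ c, ∑ d, f i j k l a b c d) =
      ∑ a, ∑ b, ∑ c, ∑ d, ∑ i, ∑ j, ∑ k, ∑ l, f i j k l a b c d := by
  calc (∑ i, ∑ j, ∑ k, ∑ l, ∑ a, ∑ b, ∑ c, ∑ d, f i j k l a b c d)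
      = ∑ p : α × α × α × α, ∑ q : β × β × β × β,
          f p.1 p.2.1 p.2.2.1 p.2.2.2 q.1 q.2.1 q.2.2.1 q.2.2.2 := by
        simp only [Fintype.sum_prod_type]
    _ = ∑ q : β × β × β × β, ∑ p : α × α × α × α,
          f p.1 p.2.1 p.2.2.1 p.2.2.2 q.1 q.2.1 q.2.2.1 q.2.2.2 := Finset.sum_comm
    _ = _ := by simp only [Fintype.sum_prod_type]

theorem swap24 (f : α → α → β → β → β → β → 𝕜) :
    (∑ i, ∑ j, ∑ a, ∑ b, ∑ c, ∑ d, f i j a b c d) =
      ∑ a, ∑ b, ∑ c, ∑ d, ∑ i, ∑ j, f i j a b c d := by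
  calc (∑ i, ∑ j, ∑ a, ∑ b, ∑ c, ∑ d, f i j a b c d)
      = ∑ p : α × α, ∑ q : β × β × β × β, f p.1 p.2 q.1 q.2.1 q.2.2.1 q.2.2.2 := by
        simp only [Fintype.sum_prod_type]
    _ = ∑ q : β × β × β × β, ∑ p : α × α, f p.1 p.2 q.1 q.2.1 q.2.2.1 q.2.2.2 := Finset.sum_comm
    _ = _ := by simp only [Fintype.sum_prod_type]

theorem swap22 (f : α → α → β → β → 𝕜) :
    (∑ i, ∑ j, ∑ a, ∑ b, f i j a b) = ∑ a, ∑ b, ∑ i, ∑ j, f i j a b := by
  calc (∑ i, ∑ j, ∑ a, ∑ b, f i j a b) = ∑ p : α × α, ∑ q : β × β, f p.1 p.2 q.1 q.2 := by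
        simp only [Fintype.sum_prod_type]
    _ = ∑ q : β × β, ∑ p : α × α, f p.1 p.2 q.1 q.2 := Finset.sum_comm
    _ = _ := by simp only [Fintype.sum_prod_type]

/-- four slots -/
theorem expand (S : β → β → β → β → 𝕜) (A : α → β → 𝕜) (x y z w : α → 𝕜) :
    (∑ i, ∑ j, ∑ k, ∑ l, (∑ a, ∑ b, ∑ c, ∑ d, S a b c d * A i a * A j b * A k c * A l d) *
        x i * y j * z k * w l) =
      ∑ a, ∑ b, ∑ c, ∑ d, S a b c d * (∑ i, A i a * x i) * (∑ j, A j b * y j) *
        (∑ k, A k c * z k) * (∑ l, A l d * w l) := by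
  have h1 : ∀ a b c d, (∑ i, ∑ j, ∑ k, ∑ l, S a b c d * (A i a * x i) * (A j b * y j) *
      (A k c * z k) * (A l d * w l)) = S a b c d * (∑ i, A i a * x i) * (∑ j, A j b * y j) *
        (∑ k, A k c * z k) * (∑ l, A l d * w l) := by
    intro a b c d
    simp only [← Finset.mul_sum, ← Finset.sum_mul]
  simp only [← h1]
  rw [← swap44]
  refine Finset.sum_congr rfl fun i _ => Finset.sum_congr rfl fun j _ =>
    Finset.sum_congr rfl fun k _ => Finset.sum_congr rfl fun l _ => ?_
  simp only [Finset.sum_mul]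
  refine Finset.sum_congr rfl fun a _ => Finset.sum_congr rfl fun b _ =>
    Finset.sum_congr rfl fun c _ => Finset.sum_congr rfl fun d _ => ?_
  ring

/-- two slots -/
theorem expand2 (S : β → β → 𝕜) (A : α → β → 𝕜) (x y : α → 𝕜) :
    (∑ i, ∑ j, (∑ a, ∑ b, S a b * A i a * A j b) * x i * y j) =
      ∑ a, ∑ b, S a b * (∑ i, A i a * x i) * (∑ j, A j b * y j) := by
  have h1 : ∀ a b, (∑ i, ∑ j, S a b * (A i a * x i) * (A j b * y j)) =
      S a b * (∑ i, A i a * x i) * (∑ j, A j b * y j) := by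
    intro a b
    simp only [← Finset.mul_sum, ← Finset.sum_mul]
  simp only [← h1]
  rw [← swap22]
  refine Finset.sum_congr rfl fun i _ => Finset.sum_congr rfl fun j _ => ?_
  simp only [Finset.sum_mul]
  refine Finset.sum_congr rfl fun a _ => Finset.sum_congr rfl fun b _ => ?_
  ring

end sums

variable {n : ℕ} {ν : Ix n → ℝ} {ι : Ix n → Fin n → ℝ}

theorem compl' (h : Iso ν ι) (i j : Ix n) :
    ∑ a, ι i a * ι j a = (if i = j then 1 else 0) - ν i * ν j := h.compl i j

/-- contraction with the projection -/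
theorem contr (h : Iso ν ι) (f : Ix n → ℝ) (hf : ∑ d, f d * ν d = 0) (l : Ix n) :
    ∑ l', f l' * (∑ a, ι l' a * ι l a) = f l := by
  simp only [h.compl, mul_sub, Finset.sum_sub_distrib, mul_ite, mul_one, mul_zero]
  rw [Finset.sum_ite_eq' Finset.univ l f]
  have : ∑ x, f x * (ν x * ν l) = (∑ x, f x * ν x) * ν l := by
    rw [Finset.sum_mul]
    exact Finset.sum_congr rfl fun x _ => by ring
  rw [this, hf]
  simp

/-! ## Kernel in every slot -/

variable {R : T4 (n + 1)}

theorem k4 (h : Hor ν R) (a b c : Ix n) : ∑ d, R a b c d * ν d = 0 := h.2 a b c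

theorem k3 (h : Hor ν R) (a b d : Ix n) : ∑ c, R a b c d * ν c = 0 := by
  have h1 : ∀ c, R a b c d * ν c = -(R a b d c * ν c) := fun c => by
    rw [h.1.a34 a b c d]
    ring
  simp only [h1, Finset.sum_neg_distrib]
  rw [k4 h a b d, neg_zero]

theorem k2 (h : Hor ν R) (a c d : Ix n) : ∑ b, R a b c d * ν b = 0 := by
  have h1 : ∀ b, R a b c d * ν b = R c d a b * ν b := fun b => by rw [h.1.pair a b c d]
  simp only [h1]
  exact k4 h c d a

theorem k1 (h : Hor ν R) (b c d : Ix n) : ∑ a, R a b c d * ν a = 0 := by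
  have h1 : ∀ a, R a b c d * ν a = R c d a b * ν a := fun a => by rw [h.1.pair a b c d]
  simp only [h1]
  exact k3 h c d b

/-- (2) -/
theorem two (h : Iso ν ι) (hR : Hor ν R) (i j k l : Ix n) :
    R i j k l = ∑ a, ∑ b, ∑ c, ∑ d, pull ι R a b c d * ι i a * ι j b * ι k c * ι l d := by
  unfold pull
  have e := expand (α := Fin n) (β := Ix n) R (fun a i => ι i a) (fun a => ι i a)
    (fun a => ι j a) (fun a => ι k a) (fun a => ι l a)
  rw [e]
  symm
  have s1 : ∀ a b c, (∑ d, R a b c d * (∑ x, ι a x * ι i x) * (∑ x, ι b x * ι j x) *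
      (∑ x, ι c x * ι k x) * (∑ x, ι d x * ι l x)) =
      R a b c l * (∑ x, ι a x * ι i x) * (∑ x, ι b x * ι j x) * (∑ x, ι c x * ι k x) := by
    intro a b c
    rw [← contr h (fun d => R a b c d * (∑ x, ι a x * ι i x) * (∑ x, ι b x * ι j x) *
      (∑ x, ι c x * ι k x)) ?_ l]
    calc (∑ d, R a b c d * (∑ x, ι a x * ι i x) * (∑ x, ι b x * ι j x) *
      (∑ x, ι c x * ι k x) * ν d) = (∑ d, R a b c d * ν d) * ((∑ x, ι a x * ι i x) *
        (∑ x, ι b x * ι j x) * (∑ x, ι c x * ι k x)) := by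
          rw [Finset.sum_mul]
          exact Finset.sum_congr rfl fun d _ => by ring
      _ = 0 := by rw [k4 hR, zero_mul]
  have s2 : ∀ a b, (∑ c, R a b c l * (∑ x, ι a x * ι i x) * (∑ x, ι b x * ι j x) *
      (∑ x, ι c x * ι k x)) = R a b k l * (∑ x, ι a x * ι i x) * (∑ x, ι b x * ι j x) := by
    intro a b
    rw [← contr h (fun c => R a b c l * (∑ x, ι a x * ι i x) * (∑ x, ι b x * ι j x)) ?_ k]
    calc (∑ c, R a b c l * (∑ x, ι a x * ι i x) * (∑ x, ι b x * ι j x) * ν c) =
        (∑ c, R a b c l * ν c) * ((∑ x, ι a x * ι i x) * (∑ x, ι b x * ι j x)) := by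
          rw [Finset.sum_mul]
          exact Finset.sum_congr rfl fun d _ => by ring
      _ = 0 := by rw [k3 hR, zero_mul]
  have s3 : ∀ a, (∑ b, R a b k l * (∑ x, ι a x * ι i x) * (∑ x, ι b x * ι j x)) =
      R a j k l * (∑ x, ι a x * ι i x) := by
    intro a
    rw [← contr h (fun b => R a b k l * (∑ x, ι a x * ι i x)) ?_ j]
    calc (∑ b, R a b k l * (∑ x, ι a x * ι i x) * ν b) =
        (∑ b, R a b k l * ν b) * (∑ x, ι a x * ι i x) := by
          rw [Finset.sum_mul]
          exact Finset.sum_congr rfl fun d _ => by ring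
      _ = 0 := by rw [k2 hR, zero_mul]
  simp only [s1, s2, s3]
  exact contr h (fun a => R a j k l) (k1 hR j k l) i

/-! ## Ricci -/

theorem ric_k2 (hR : Hor ν R) (i : Ix n) : ∑ j, Ric R i j * ν j = 0 := by
  unfold Ric
  simp only [Finset.sum_mul]
  rw [Finset.sum_comm]
  exact Finset.sum_eq_zero fun b _ => k3 hR i b b

theorem ric_k1 (hR : Hor ν R) (j : Ix n) : ∑ i, Ric R i j * ν i = 0 := by
  unfold Ric
  simp only [Finset.sum_mul]
  rw [Finset.sum_comm]
  exact Finset.sum_eq_zero fun b _ => k1 hR b j b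

theorem ric_pull (h : Iso ν ι) (hR : Hor ν R) : Ric (pull ι R) = pull2 ι (Ric R) := by
  funext a c
  unfold Ric pull2 pull
  calc (∑ b, ∑ i, ∑ j, ∑ k, ∑ l, R i j k l * ι i a * ι j b * ι k c * ι l b)
      = ∑ i, ∑ j, ∑ k, ∑ l, ∑ b, R i j k l * ι i a * ι j b * ι k c * ι l b := by
        rw [Finset.sum_comm]
        refine Finset.sum_congr rfl fun i _ => ?_
        rw [Finset.sum_comm]
        refine Finset.sum_congr rfl fun j _ => ?_
        rw [Finset.sum_comm]
        refine Finset.sum_congr rfl fun k _ => ?_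
        rw [Finset.sum_comm]
    _ = ∑ i, ∑ j, ∑ k, R i j k j * ι i a * ι k c := by
        refine Finset.sum_congr rfl fun i _ => Finset.sum_congr rfl fun j _ =>
          Finset.sum_congr rfl fun k _ => ?_
        have e1 : ∀ l, (∑ b, R i j k l * ι i a * ι j b * ι k c * ι l b) =
            (R i j k l * ι i a * ι k c) * ∑ b, ι l b * ι j b := by
          intro l
          rw [Finset.mul_sum]
          exact Finset.sum_congr rfl fun b _ => by ring
        simp only [e1]
        refine contr h (fun l => R i j k l * ι i a * ι k c) ?_ j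
        calc (∑ l, R i j k l * ι i a * ι k c * ν l) = (∑ l, R i j k l * ν l) * (ι i a * ι k c) := by
              rw [Finset.sum_mul]
              exact Finset.sum_congr rfl fun d _ => by ring
          _ = 0 := by rw [k4 hR, zero_mul]
    _ = ∑ i, ∑ k, (∑ j, R i j k j) * ι i a * ι k c := by
        refine Finset.sum_congr rfl fun i _ => ?_
        rw [Finset.sum_comm]
        refine Finset.sum_congr rfl fun k _ => ?_
        simp only [Finset.sum_mul]

/-- inverse of `pull2` -/
theorem pull2_inv (h : Iso ν ι) (A : M2 (n + 1)) (h2 : ∀ i, ∑ j, A i j * ν j = 0)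
    (h1 : ∀ j, ∑ i, A i j * ν i = 0) (i j : Ix n) :
    A i j = ∑ a, ∑ b, pull2 ι A a b * ι i a * ι j b := by
  unfold pull2
  have e := expand2 (α := Fin n) (β := Ix n) A (fun a i => ι i a) (fun a => ι i a)
    (fun a => ι j a)
  rw [e]
  symm
  have s1 : ∀ a, (∑ b, A a b * (∑ x, ι a x * ι i x) * (∑ x, ι b x * ι j x)) =
      A a j * (∑ x, ι a x * ι i x) := by
    intro a
    rw [← contr h (fun b => A a b * (∑ x, ι a x * ι i x)) ?_ j]
    calc (∑ b, A a b * (∑ x, ι a x * ι i x) * ν b) = (∑ b, A a b * ν b) * (∑ x, ι a x * ι i x) := by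
          rw [Finset.sum_mul]
          exact Finset.sum_congr rfl fun d _ => by ring
      _ = 0 := by rw [h2, zero_mul]
  simp only [s1]
  exact contr h (fun a => A a j) (h1 j) i

theorem trace_pull2 (h : Iso ν ι) (A : M2 (n + 1)) (h2 : ∀ i, ∑ j, A i j * ν j = 0) :
    ∑ a, pull2 ι A a a = ∑ i, A i i := by
  unfold pull2
  rw [Finset.sum_comm]
  refine Finset.sum_congr rfl fun i _ => ?_
  rw [Finset.sum_comm]
  have e1 : ∀ j, (∑ a, A i j * ι i a * ι j a) = A i j * ∑ a, ι j a * ι i a := by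
    intro j
    rw [Finset.mul_sum]
    exact Finset.sum_congr rfl fun a _ => by ring
  simp only [e1]
  exact contr h (fun j => A i j) (h2 i) i

/-! ## The reaction term -/

theorem isCurv_Q {m : ℕ} {R : T4 m} (h : IsCurv R) : IsCurv (Q R) := by
  have i1 : ∀ a b c d, BB R R a b c d = BB R R c d a b := by
    intro a b c d
    unfold BB
    exact Finset.sum_congr rfl fun e _ => Finset.sum_congr rfl fun f _ => by ring
  have i2 : ∀ a b c d, BB R R a b c d = BB R R b a d c := by
    intro a b c d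
    unfold BB
    rw [Finset.sum_comm]
    refine Finset.sum_congr rfl fun f _ => Finset.sum_congr rfl fun e _ => ?_
    rw [h.pair a e b f, h.pair c e d f]
  refine ⟨fun a b c d => ?_, fun a b c d => ?_, fun a b c d => ?_, fun a b c d => ?_⟩
  · unfold Q
    rw [i2 b a c d, i2 b a d c, i1 b c a d, i1 b d a c]
    ring
  · unfold Q
    ring
  · unfold Q
    rw [i1 c d a b, i1 c d b a, i2 b a c d, i2 c a d b, i1 c b d a, i2 d a c b]
  · unfold Q
    rw [i1 a d b c, i2 b a c d, i1 c d a b, i1 b d c a, i2 c a d b, i2 b c d a]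
    ring

theorem BB_k4 (hR : Hor ν R) (a b c : Ix n) : ∑ d, BB R R a b c d * ν d = 0 := by
  unfold BB
  simp only [Finset.sum_mul]
  rw [Finset.sum_comm]
  refine Finset.sum_eq_zero fun e _ => ?_
  rw [Finset.sum_comm]
  refine Finset.sum_eq_zero fun f _ => ?_
  have : ∀ d, R a e b f * R c e d f * ν d = R a e b f * (R c e d f * ν d) := fun d => by ring
  simp only [this]
  rw [← Finset.mul_sum, k3 hR, mul_zero]

theorem BB_k3 (hR : Hor ν R) (a b d : Ix n) : ∑ c, BB R R a b c d * ν c = 0 := by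
  unfold BB
  simp only [Finset.sum_mul]
  rw [Finset.sum_comm]
  refine Finset.sum_eq_zero fun e _ => ?_
  rw [Finset.sum_comm]
  refine Finset.sum_eq_zero fun f _ => ?_
  have : ∀ c, R a e b f * R c e d f * ν c = R a e b f * (R c e d f * ν c) := fun d => by ring
  simp only [this]
  rw [← Finset.mul_sum, k1 hR, mul_zero]

theorem BB_k2 (hR : Hor ν R) (a c d : Ix n) : ∑ b, BB R R a b c d * ν b = 0 := by
  unfold BB
  simp only [Finset.sum_mul]
  rw [Finset.sum_comm]
  refine Finset.sum_eq_zero fun e _ => ?_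
  rw [Finset.sum_comm]
  refine Finset.sum_eq_zero fun f _ => ?_
  have : ∀ b, R a e b f * R c e d f * ν b = R c e d f * (R a e b f * ν b) := fun d => by ring
  simp only [this]
  rw [← Finset.mul_sum, k3 hR, mul_zero]

theorem hor_Q (hR : Hor ν R) : Hor ν (Q R) := by
  refine ⟨isCurv_Q hR.1, fun a b c => ?_⟩
  unfold Q
  simp only [sub_mul, add_mul, Finset.sum_sub_distrib, Finset.sum_add_distrib]
  rw [BB_k4 hR, BB_k3 hR, BB_k4 hR, BB_k2 hR]
  ring

/-- half transformed tensor -/
def hf (ι : Ix n → Fin n → ℝ) (R : T4 (n + 1)) (p q : Fin n) : M2 (n + 1) := fun e f =>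
  ∑ i, ∑ k, R i e k f * ι i p * ι k q

theorem pull_hf (p e' q f' : Fin n) :
    pull ι R p e' q f' = pull2 ι (hf ι R p q) e' f' := by
  unfold pull pull2 hf
  calc (∑ i, ∑ j, ∑ k, ∑ l, R i j k l * ι i p * ι j e' * ι k q * ι l f')
      = ∑ j, ∑ i, ∑ l, ∑ k, R i j k l * ι i p * ι j e' * ι k q * ι l f' := by
        rw [Finset.sum_comm]
        refine Finset.sum_congr rfl fun j _ => Finset.sum_congr rfl fun i _ => ?_
        rw [Finset.sum_comm]
    _ = ∑ j, ∑ l, ∑ i, ∑ k, R i j k l * ι i p * ι j e' * ι k q * ι l f' := by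
        refine Finset.sum_congr rfl fun j _ => ?_
        rw [Finset.sum_comm]
    _ = _ := by
        refine Finset.sum_congr rfl fun j _ => Finset.sum_congr rfl fun l _ => ?_
        simp only [Finset.sum_mul]
        exact Finset.sum_congr rfl fun i _ => Finset.sum_congr rfl fun k _ => by ring

theorem hf_k2 (hR : Hor ν R) (p q : Fin n) (e : Ix n) : ∑ f, hf ι R p q e f * ν f = 0 := by
  unfold hf
  simp only [Finset.sum_mul]
  rw [Finset.sum_comm]
  refine Finset.sum_eq_zero fun i _ => ?_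
  rw [Finset.sum_comm]
  refine Finset.sum_eq_zero fun k _ => ?_
  have : ∀ f, R i e k f * ι i p * ι k q * ν f = (ι i p * ι k q) * (R i e k f * ν f) :=
    fun f => by ring
  simp only [this]
  rw [← Finset.mul_sum, k4 hR, mul_zero]

theorem hf_k1 (hR : Hor ν R) (p q : Fin n) (f : Ix n) : ∑ e, hf ι R p q e f * ν e = 0 := by
  unfold hf
  simp only [Finset.sum_mul]
  rw [Finset.sum_comm]
  refine Finset.sum_eq_zero fun i _ => ?_
  rw [Finset.sum_comm]
  refine Finset.sum_eq_zero fun k _ => ?_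
  have : ∀ e, R i e k f * ι i p * ι k q * ν e = (ι i p * ι k q) * (R i e k f * ν e) :=
    fun f => by ring
  simp only [this]
  rw [← Finset.mul_sum, k2 hR, mul_zero]

theorem frob (h : Iso ν ι) (X Y : M2 (n + 1)) (h2 : ∀ i, ∑ j, X i j * ν j = 0)
    (h1 : ∀ j, ∑ i, X i j * ν i = 0) :
    ∑ a, ∑ b, pull2 ι X a b * pull2 ι Y a b = ∑ i, ∑ j, X i j * Y i j := by
  calc (∑ a, ∑ b, pull2 ι X a b * pull2 ι Y a b)
      = ∑ a, ∑ b, ∑ i, ∑ j, pull2 ι X a b * (Y i j * ι i a * ι j b) := by
        refine Finset.sum_congr rfl fun a _ => Finset.sum_congr rfl fun b _ => ?_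
        conv_lhs => rw [show pull2 ι Y a b = ∑ i, ∑ j, Y i j * ι i a * ι j b from rfl]
        simp only [Finset.mul_sum]
    _ = ∑ i, ∑ j, ∑ a, ∑ b, pull2 ι X a b * (Y i j * ι i a * ι j b) := swap22 _
    _ = _ := by
        refine Finset.sum_congr rfl fun i _ => Finset.sum_congr rfl fun j _ => ?_
        rw [pull2_inv h X h2 h1 i j, Finset.sum_mul]
        refine Finset.sum_congr rfl fun a _ => ?_
        rw [Finset.sum_mul]
        exact Finset.sum_congr rfl fun b _ => by ring

theorem BB_pull (h : Iso ν ι) (hR : Hor ν R) (a b c d : Fin n) :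
    BB (pull ι R) (pull ι R) a b c d = pull ι (BB R R) a b c d := by
  calc BB (pull ι R) (pull ι R) a b c d
      = ∑ e, ∑ f, pull2 ι (hf ι R a b) e f * pull2 ι (hf ι R c d) e f := by
        unfold BB
        refine Finset.sum_congr rfl fun e _ => Finset.sum_congr rfl fun f _ => ?_
        rw [pull_hf, pull_hf]
    _ = ∑ e, ∑ f, hf ι R a b e f * hf ι R c d e f := frob h _ _ (hf_k2 hR a b) (hf_k1 hR a b)
    _ = ∑ e, ∑ f, ∑ i, ∑ k, ∑ j, ∑ l,
          (R i e k f * R j e l f) * ι i a * ι k b * ι j c * ι l d := by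
        refine Finset.sum_congr rfl fun e _ => Finset.sum_congr rfl fun f _ => ?_
        unfold hf
        simp only [Finset.sum_mul]
        refine Finset.sum_congr rfl fun i _ => Finset.sum_congr rfl fun k _ => ?_
        rw [Finset.mul_sum]
        refine Finset.sum_congr rfl fun j _ => ?_
        rw [Finset.mul_sum]
        exact Finset.sum_congr rfl fun l _ => by ring
    _ = ∑ i, ∑ k, ∑ j, ∑ l, ∑ e, ∑ f,
          (R i e k f * R j e l f) * ι i a * ι k b * ι j c * ι l d := swap24 _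
    _ = _ := by
        unfold pull BB
        refine Finset.sum_congr rfl fun i _ => Finset.sum_congr rfl fun k _ =>
          Finset.sum_congr rfl fun j _ => Finset.sum_congr rfl fun l _ => ?_
        simp only [Finset.sum_mul]

theorem pull_Q (T : T4 (n + 1)) (a b c d : Fin n) :
    (∑ i, ∑ j, ∑ k, ∑ l, (T i j k l - T i j l k + T i k j l - T i l j k) *
      ι i a * ι j b * ι k c * ι l d) =
      pull ι T a b c d - pull ι T a b d c + pull ι T a c b d - pull ι T a d b c := by
  have e1 : (∑ i, ∑ j, ∑ k, ∑ l, T i j l k * ι i a * ι j b * ι k c * ι l d) =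
      pull ι T a b d c := by
    unfold pull
    refine Finset.sum_congr rfl fun i _ => Finset.sum_congr rfl fun j _ => ?_
    rw [Finset.sum_comm]
    exact Finset.sum_congr rfl fun k _ => Finset.sum_congr rfl fun l _ => by ring
  have e2 : (∑ i, ∑ j, ∑ k, ∑ l, T i k j l * ι i a * ι j b * ι k c * ι l d) =
      pull ι T a c b d := by
    unfold pull
    refine Finset.sum_congr rfl fun i _ => ?_
    rw [Finset.sum_comm]
    exact Finset.sum_congr rfl fun j _ => Finset.sum_congr rfl fun k _ =>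
      Finset.sum_congr rfl fun l _ => by ring
  have e3 : (∑ i, ∑ j, ∑ k, ∑ l, T i l j k * ι i a * ι j b * ι k c * ι l d) =
      pull ι T a d b c := by
    unfold pull
    refine Finset.sum_congr rfl fun i _ => ?_
    calc (∑ j, ∑ k, ∑ l, T i l j k * ι i a * ι j b * ι k c * ι l d)
        = ∑ j, ∑ l, ∑ k, T i l j k * ι i a * ι j b * ι k c * ι l d :=
          Finset.sum_congr rfl fun j _ => Finset.sum_comm
      _ = ∑ l, ∑ j, ∑ k, T i l j k * ι i a * ι j b * ι k c * ι l d := Finset.sum_comm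
      _ = _ := Finset.sum_congr rfl fun j _ => Finset.sum_congr rfl fun k _ =>
          Finset.sum_congr rfl fun l _ => by ring
  rw [← e1, ← e2, ← e3]
  unfold pull
  simp only [← Finset.sum_sub_distrib, ← Finset.sum_add_distrib]
  exact Finset.sum_congr rfl fun i _ => Finset.sum_congr rfl fun j _ =>
    Finset.sum_congr rfl fun k _ => Finset.sum_congr rfl fun l _ => by ring

theorem Q_pull (h : Iso ν ι) (hR : Hor ν R) : Q (pull ι R) = pull ι (Q R) := by
  funext a b c d
  have e := pull_Q (ι := ι) (BB R R) a b c d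
  rw [show pull ι (Q R) a b c d = ∑ i, ∑ j, ∑ k, ∑ l, (BB R R i j k l - BB R R i j l k +
    BB R R i k j l - BB R R i l j k) * ι i a * ι j b * ι k c * ι l d from rfl, e]
  unfold Q
  rw [BB_pull h hR, BB_pull h hR, BB_pull h hR, BB_pull h hR]

/-! ## Curvature conditions of the restriction -/

theorem isCurv_pull (hR : IsCurv R) : IsCurv (pull ι R) := by
  refine ⟨fun a b c d => ?_, fun a b c d => ?_, fun a b c d => ?_, fun a b c d => ?_⟩
  · unfold pull
    rw [Finset.sum_comm]
    simp only [← Finset.sum_neg_distrib]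
    refine Finset.sum_congr rfl fun i _ => Finset.sum_congr rfl fun j _ =>
      Finset.sum_congr rfl fun k _ => Finset.sum_congr rfl fun l _ => ?_
    rw [hR.a12 j i k l]
    ring
  · unfold pull
    simp only [← Finset.sum_neg_distrib]
    refine Finset.sum_congr rfl fun i _ => Finset.sum_congr rfl fun j _ => ?_
    rw [Finset.sum_comm]
    refine Finset.sum_congr rfl fun k _ => Finset.sum_congr rfl fun l _ => ?_
    rw [hR.a34 i j l k]
    ring
  · unfold pull
    rw [swap22]
    refine Finset.sum_congr rfl fun i _ => Finset.sum_congr rfl fun j _ =>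
      Finset.sum_congr rfl fun k _ => Finset.sum_congr rfl fun l _ => ?_
    rw [hR.pair k l i j]
    ring
  · have e1 : pull ι R b c a d = ∑ i, ∑ j, ∑ k, ∑ l, R j k i l * ι i a * ι j b * ι k c * ι l d := by
      unfold pull
      calc (∑ i, ∑ j, ∑ k, ∑ l, R i j k l * ι i b * ι j c * ι k a * ι l d)
          = ∑ i, ∑ k, ∑ j, ∑ l, R i j k l * ι i b * ι j c * ι k a * ι l d :=
            Finset.sum_congr rfl fun i _ => Finset.sum_comm
        _ = ∑ k, ∑ i, ∑ j, ∑ l, R i j k l * ι i b * ι j c * ι k a * ι l d := Finset.sum_comm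
        _ = _ := Finset.sum_congr rfl fun i _ => Finset.sum_congr rfl fun j _ =>
            Finset.sum_congr rfl fun k _ => Finset.sum_congr rfl fun l _ => by ring
    have e2 : pull ι R c a b d = ∑ i, ∑ j, ∑ k, ∑ l, R k i j l * ι i a * ι j b * ι k c * ι l d := by
      unfold pull
      calc (∑ i, ∑ j, ∑ k, ∑ l, R i j k l * ι i c * ι j a * ι k b * ι l d)
          = ∑ j, ∑ i, ∑ k, ∑ l, R i j k l * ι i c * ι j a * ι k b * ι l d := Finset.sum_comm
        _ = ∑ j, ∑ k, ∑ i, ∑ l, R i j k l * ι i c * ι j a * ι k b * ι l d :=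
            Finset.sum_congr rfl fun i _ => Finset.sum_comm
        _ = _ := Finset.sum_congr rfl fun i _ => Finset.sum_congr rfl fun j _ =>
            Finset.sum_congr rfl fun k _ => Finset.sum_congr rfl fun l _ => by ring
    rw [e1, e2]
    unfold pull
    simp only [← Finset.sum_add_distrib]
    refine Finset.sum_eq_zero fun i _ => Finset.sum_eq_zero fun j _ =>
      Finset.sum_eq_zero fun k _ => Finset.sum_eq_zero fun l _ => ?_
    have h := hR.bian i j k l
    have e : R i j k l * ι i a * ι j b * ι k c * ι l d + R j k i l * ι i a * ι j b * ι k c * ι l d +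
        R k i j l * ι i a * ι j b * ι k c * ι l d =
        (R i j k l + R j k i l + R k i j l) * (ι i a * ι j b * ι k c * ι l d) := by ring
    rw [e, h, zero_mul]

theorem inner4 (h : Iso ν ι) (hR : Hor ν R) (T : T4 (n + 1)) :
    (∑ i, ∑ j, ∑ k, ∑ l, R i j k l * T i j k l) =
      ∑ a, ∑ b, ∑ c, ∑ d, pull ι R a b c d * pull ι T a b c d := by
  calc (∑ i, ∑ j, ∑ k, ∑ l, R i j k l * T i j k l)
      = ∑ i, ∑ j, ∑ k, ∑ l, ∑ a, ∑ b, ∑ c, ∑ d,
          pull ι R a b c d * (T i j k l * ι i a * ι j b * ι k c * ι l d) := by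
        refine Finset.sum_congr rfl fun i _ => Finset.sum_congr rfl fun j _ =>
          Finset.sum_congr rfl fun k _ => Finset.sum_congr rfl fun l _ => ?_
        rw [two h hR i j k l]
        simp only [Finset.sum_mul]
        exact Finset.sum_congr rfl fun a _ => Finset.sum_congr rfl fun b _ =>
          Finset.sum_congr rfl fun c _ => Finset.sum_congr rfl fun d _ => by ring
    _ = ∑ a, ∑ b, ∑ c, ∑ d, ∑ i, ∑ j, ∑ k, ∑ l,
          pull ι R a b c d * (T i j k l * ι i a * ι j b * ι k c * ι l d) := swap44 _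
    _ = _ := by
        refine Finset.sum_congr rfl fun a _ => Finset.sum_congr rfl fun b _ =>
          Finset.sum_congr rfl fun c _ => Finset.sum_congr rfl fun d _ => ?_
        rw [show pull ι T a b c d = ∑ i, ∑ j, ∑ k, ∑ l, T i j k l * ι i a * ι j b * ι k c * ι l d
          from rfl]
        simp only [Finset.mul_sum]

theorem qf_pull (h : Iso ν ι) (hR : Hor ν R) (z w : Ix n → ℂ) :
    qf R z w = qf (pull ι R) (pullv ι z) (pullv ι w) := by
  unfold qf
  congr 1
  have e := expand (𝕜 := ℂ) (α := Ix n) (β := Fin n) (fun a b c d => (pull ι R a b c d : ℂ))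
    (fun i a => (ι i a : ℂ)) z w (fun k => star (z k)) (fun k => star (w k))
  have h1 : ∀ i j k l, ((R i j k l : ℝ) : ℂ) = ∑ a, ∑ b, ∑ c, ∑ d,
      (pull ι R a b c d : ℂ) * (ι i a : ℂ) * (ι j b : ℂ) * (ι k c : ℂ) * (ι l d : ℂ) := by
    intro i j k l
    rw [two h hR i j k l]
    push_cast
    rfl
  have h2 : ∀ (x : Ix n → ℂ) (a : Fin n), star (pullv ι x a) = ∑ k, (ι k a : ℂ) * star (x k) := by
    intro x a
    unfold pullv
    rw [star_sum]
    refine Finset.sum_congr rfl fun k _ => ?_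
    rw [star_mul', Complex.star_def, Complex.conj_ofReal]
  simp only [h2]
  unfold pullv
  rw [← e]
  exact Finset.sum_congr rfl fun i _ => Finset.sum_congr rfl fun j _ =>
    Finset.sum_congr rfl fun k _ => Finset.sum_congr rfl fun l _ => by rw [h1 i j k l]

theorem goal_RP2' : Goal_RP2 := by
  intro n ν ι R h hR
  have hric := ric_pull h hR
  have h4 : ∀ i j, Ric R i j = ∑ a, ∑ b, Ric (pull ι R) a b * ι i a * ι j b := by
    intro i j
    rw [hric]
    exact pull2_inv h (Ric R) (ric_k2 hR) (ric_k1 hR) i j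
  refine ⟨isCurv_pull hR.1, two h hR, hric, h4, ?_, Q_pull h hR, hor_Q hR, qf_pull h hR, ?_, ?_,
    fun T _ => inner4 h hR T⟩
  · unfold lam
    rw [hric, trace_pull2 h (Ric R) (ric_k2 hR)]
  · intro v
    unfold rq pullr
    have e := expand2 (α := Ix n) (β := Fin n) (fun a b => Ric (pull ι R) a b) ι v v
    rw [← e]
    exact Finset.sum_congr rfl fun i _ => Finset.sum_congr rfl fun j _ => by rw [← h4 i j]
  · have := inner4 h hR R
    simp only [← sq] at this
    exact this

theorem goal_RP2 (_ : Goal_RP1) : Goal_RP2 := goal_RP2'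

end Pool.Agent.Helper65.RFn
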