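import Pool.Agent.Helper47.RFn.CoreN

/-!
# Project RFn: packet C4 (integration on the sphere, general dimension)
-/

set_option autoImplicit false

namespace Pool.Agent.Helper65.RFn

open Finset Pool.Agent.Helper47.RFn MeasureTheory

variable {n : ℕ}

/-- a smooth function is bounded -/
theorem bounded {f : EE n → ℝ} (hf : Sm f) : ∃ C, 0 ≤ C ∧ ∀ x, x ≠ 0 → |f x| ≤ C := by
  have hc : IsCompact (Metric.sphere (0 : EE n) 1) := isCompact_sphere _ _
  have hcont : ContinuousOn (fun x => |f x|) (Metric.sphere (0 : EE n) 1) := by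
    refine (hf.cd.continuousOn.mono ?_).abs
    intro x hx
    rw [mem_sphere_zero_iff_norm] at hx
    intro h
    rw [Set.mem_singleton_iff] at h
    rw [h, norm_zero] at hx
    exact zero_ne_one hx
  obtain ⟨C, hC⟩ := hc.bddAbove_image hcont
  refine ⟨max C 0, le_max_right _ _, fun x hx => ?_⟩
  have hn : 0 < ‖x‖ := norm_pos_iff.2 hx
  have h1 : f (‖x‖⁻¹ • x) = f x := hf.hom _ _ (inv_pos.2 hn)
  rw [← h1]
  refine (hC ⟨‖x‖⁻¹ • x, ?_, rfl⟩).trans (le_max_left _ _)
  rw [mem_sphere_zero_iff_norm, norm_smul, norm_inv, norm_norm, inv_mul_cancel₀ hn.ne']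

theorem aesm {f : EE n → ℝ} (hf : Sm f) : AEStronglyMeasurable f (volume : Measure (EE n)) := by
  have h1 : AEStronglyMeasurable f ((volume : Measure (EE n)).restrict {0}ᶜ) :=
    hf.cd.continuousOn.aestronglyMeasurable (measurableSet_singleton _).compl
  have h2 : (volume : Measure (EE n)).restrict {0}ᶜ = volume := by
    refine Measure.restrict_eq_self_of_ae_mem ?_
    rw [ae_iff]
    simp
  rwa [h2] at h1

theorem integrableOn {f : EE n → ℝ} (hf : Sm f) : IntegrableOn f (Metric.ball (0 : EE n) 1) := by
  obtain ⟨C, hC0, hC⟩ := bounded hf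
  have hs : MeasurableSet (Metric.ball (0 : EE n) 1 \ {0}) :=
    measurableSet_ball.diff (measurableSet_singleton _)
  have hfin : volume (Metric.ball (0 : EE n) 1 \ {0}) ≠ ⊤ := by
    refine ne_top_of_le_ne_top (measure_ball_lt_top (μ := (volume : Measure (EE n)))
      (x := (0 : EE n)) (r := 1)).ne (measure_mono Set.sdiff_subset)
  have h1 : IntegrableOn f (Metric.ball (0 : EE n) 1 \ {0}) := by
    refine Measure.integrableOn_of_bounded hfin ?_ (M := C) ?_
    · exact aesm hf
    · rw [ae_restrict_iff' hs]
      exact Filter.Eventually.of_forall fun x hx => by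
        rw [Real.norm_eq_abs]
        exact hC x hx.2
  refine h1.congr_set_ae ?_
  exact (sdiff_null_ae_eq_self (measure_singleton _)).symm

/-- the rotation in the plane `(i,j)` -/
noncomputable def rl (i j : Fin (n + 1)) (s : ℝ) (x : EE n) : EE n :=
  x + (((Real.cos s - 1) * x i - Real.sin s * x j) • EuclideanSpace.single i (1 : ℝ) +
    ((Real.cos s - 1) * x j + Real.sin s * x i) • EuclideanSpace.single j (1 : ℝ))

theorem rl_i {i j : Fin (n + 1)} (hij : i ≠ j) (s : ℝ) (x : EE n) :
    rl i j s x i = Real.cos s * x i - Real.sin s * x j := by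
  simp [rl, hij]
  ring

theorem rl_j {i j : Fin (n + 1)} (hij : i ≠ j) (s : ℝ) (x : EE n) :
    rl i j s x j = Real.sin s * x i + Real.cos s * x j := by
  simp [rl, hij.symm]
  ring

theorem rl_norm {i j : Fin (n + 1)} (hij : i ≠ j) (s : ℝ) (x : EE n) : ‖rl i j s x‖ = ‖x‖ := by
  have h : ‖rl i j s x‖ ^ 2 = ‖x‖ ^ 2 := by
    rw [EuclideanSpace.real_norm_sq_eq, EuclideanSpace.real_norm_sq_eq]
    have hk : ∀ k, rl i j s x k ^ 2 = x k ^ 2 +
        ((if k = i then (Real.cos s * x i - Real.sin s * x j) ^ 2 - x i ^ 2 else 0) +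
        (if k = j then (Real.sin s * x i + Real.cos s * x j) ^ 2 - x j ^ 2 else 0)) := by
      intro k
      by_cases hi : k = i
      · subst hi
        rw [rl_i hij]
        simp [hij]
      · by_cases hj : k = j
        · subst hj
          rw [rl_j hij]
          simp [hi]
        · simp [rl, hi, hj]
    simp only [hk]
    rw [Finset.sum_add_distrib, Finset.sum_add_distrib, Finset.sum_ite_eq' Finset.univ i,
      Finset.sum_ite_eq' Finset.univ j]
    simp only [Finset.mem_univ, if_true]
    have := Real.cos_sq_add_sin_sq s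
    have e : (Real.cos s * x i - Real.sin s * x j) ^ 2 - x i ^ 2 +
        ((Real.sin s * x i + Real.cos s * x j) ^ 2 - x j ^ 2) =
        (Real.cos s ^ 2 + Real.sin s ^ 2 - 1) * (x i ^ 2 + x j ^ 2) := by ring
    rw [e, this]
    ring
  have h1 := norm_nonneg (rl i j s x)
  have h2 := norm_nonneg x
  nlinarith

/-- the rotation as an isometry -/
noncomputable def rot {i j : Fin (n + 1)} (hij : i ≠ j) (s : ℝ) : EE n ≃ₗᵢ[ℝ] EE n :=
  LinearIsometry.toLinearIsometryEquiv
    (⟨{ toFun := rl i j s
        map_add' := fun x y => by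
          ext k
          by_cases h1 : k = i
          · subst h1
            simp [rl, hij]
            ring
          · by_cases h2 : k = j
            · subst h2
              simp [rl, h1]
              ring
            · simp [rl, h1, h2]
        map_smul' := fun c x => by
          ext k
          by_cases h1 : k = i
          · subst h1
            simp [rl, hij]
            ring
          · by_cases h2 : k = j
            · subst h2
              simp [rl, h1]
              ring
            · simp [rl, h1, h2] }, rl_norm hij s⟩ : EE n →ₗᵢ[ℝ] EE n) rfl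

theorem rot_apply {i j : Fin (n + 1)} (hij : i ≠ j) (s : ℝ) (x : EE n) :
    rot hij s x = rl i j s x := rfl

theorem rot_pre {i j : Fin (n + 1)} (hij : i ≠ j) (s : ℝ) :
    (rot hij s) ⁻¹' (Metric.ball (0 : EE n) 1) = Metric.ball (0 : EE n) 1 := by
  ext x
  rw [Set.mem_preimage, mem_ball_zero_iff, mem_ball_zero_iff, (rot hij s).norm_map]

theorem integral_rot {i j : Fin (n + 1)} (hij : i ≠ j) (f : EE n → ℝ) (s : ℝ) :
    ∫ x in Metric.ball (0 : EE n) 1, f (rl i j s x) = ∫ x in Metric.ball (0 : EE n) 1, f x := by
  have hmp := (rot hij s).measurePreserving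
  have hemb : MeasurableEmbedding (rot hij s) := (rot hij s).toHomeomorph.measurableEmbedding
  have h := hmp.setIntegral_preimage_emb hemb f (Metric.ball (0 : EE n) 1)
  rw [← h, rot_pre]
  rfl

theorem differentiableAt {f : EE n → ℝ} (hf : Sm f) {x : EE n} (hx : x ≠ 0) :
    DifferentiableAt ℝ f x := by
  have h : ContDiffAt ℝ ((⊤ : ℕ∞) : WithTop ℕ∞) f x :=
    hf.cd.contDiffAt (isOpen_compl_singleton.mem_nhds hx)
  exact h.differentiableAt (by simp)

theorem hasDerivAt_rl {i j : Fin (n + 1)} (hij : i ≠ j) (s : ℝ) (x : EE n) :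
    HasDerivAt (fun s => rl i j s x) ((-(rl i j s x j)) • EuclideanSpace.single i (1 : ℝ) +
      (rl i j s x i) • EuclideanSpace.single j (1 : ℝ)) s := by
  rw [rl_i hij, rl_j hij]
  have h1 : HasDerivAt (fun s => (Real.cos s - 1) * x i - Real.sin s * x j)
      (-(Real.sin s * x i + Real.cos s * x j)) s := by
    have := (((Real.hasDerivAt_cos s).sub_const 1).mul_const (x i)).sub
      ((Real.hasDerivAt_sin s).mul_const (x j))
    refine this.congr_deriv ?_
    ring
  have h2 : HasDerivAt (fun s => (Real.cos s - 1) * x j + Real.sin s * x i)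
      (Real.cos s * x i - Real.sin s * x j) s := by
    have := (((Real.hasDerivAt_cos s).sub_const 1).mul_const (x j)).add
      ((Real.hasDerivAt_sin s).mul_const (x i))
    refine this.congr_deriv ?_
    ring
  exact ((h1.smul_const (EuclideanSpace.single i (1 : ℝ))).add
    (h2.smul_const (EuclideanSpace.single j (1 : ℝ)))).const_add x

theorem hasDerivAt_rot {f : EE n → ℝ} (hf : Sm f) {i j : Fin (n + 1)} (hij : i ≠ j) (x : EE n)
    (hx : x ≠ 0) (s : ℝ) : HasDerivAt (fun s => f (rl i j s x)) (Lr i j f (rl i j s x)) s := by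
  have hne : rl i j s x ≠ 0 := by
    intro h
    have := rl_norm hij s x
    rw [h, norm_zero] at this
    exact hx (norm_eq_zero.1 this.symm)
  have h1 := (differentiableAt hf hne).hasFDerivAt
  have h3 := h1.comp_hasDerivAt s (hasDerivAt_rl hij s x)
  refine h3.congr_deriv ?_
  rw [map_add, map_smul, map_smul]
  unfold Lr pd
  simp only [smul_eq_mul]
  ring

theorem rl_zero (i j : Fin (n + 1)) (x : EE n) : rl i j 0 x = x := by
  simp [rl]

theorem Lr_zero (i j : Fin (n + 1)) (f : EE n → ℝ) : Lr i j f 0 = 0 := by
  simp [Lr]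

theorem Lr_self (i : Fin (n + 1)) (f : EE n → ℝ) (x : EE n) : Lr i i f x = 0 := by
  simp [Lr]

theorem integral_Lr {f : EE n → ℝ} (hf : Sm f) (i j : Fin (n + 1)) (hL : Sm (Lr i j f)) :
    ∫ x in Metric.ball (0 : EE n) 1, Lr i j f x = 0 := by
  by_cases hij : i = j
  · subst hij
    simp [Lr_self]
  obtain ⟨C, hC0, hC⟩ := bounded hL
  have hbd : ∀ x, ‖Lr i j f x‖ ≤ C := by
    intro x
    by_cases hx : x = 0
    · rw [hx, Lr_zero, norm_zero]; exact hC0
    · rw [Real.norm_eq_abs]; exact hC x hx
  have hne : ∀ᵐ x ∂((volume : Measure (EE n)).restrict (Metric.ball (0 : EE n) 1)), x ≠ 0 := by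
    refine ae_restrict_of_ae ?_
    rw [ae_iff]
    simp
  have hint0 := integrableOn hf
  have hintE := integrableOn hL
  have hrotint : ∀ s, IntegrableOn (fun x => f (rl i j s x)) (Metric.ball (0 : EE n) 1) := by
    intro s
    have hmp := (rot hij s).measurePreserving
    have hemb : MeasurableEmbedding (rot hij s) := (rot hij s).toHomeomorph.measurableEmbedding
    have h := (hmp.integrableOn_comp_preimage hemb (f := f) (s := Metric.ball (0 : EE n) 1)).2 hint0
    rw [rot_pre] at h
    exact h
  have key := hasDerivAt_integral_of_dominated_loc_of_deriv_le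
    (μ := (volume : Measure (EE n)).restrict (Metric.ball (0 : EE n) 1))
    (F := fun s x => f (rl i j s x))
    (F' := fun s x => Lr i j f (rl i j s x)) (x₀ := (0 : ℝ)) (s := Set.univ) (bound := fun _ => C)
    Filter.univ_mem (Filter.Eventually.of_forall fun s => (hrotint s).aestronglyMeasurable)
    (hrotint 0)
    (by
      simp only [rl_zero]
      exact hintE.aestronglyMeasurable)
    (Filter.Eventually.of_forall fun x s _ => hbd _)
    (integrableOn_const (measure_ball_lt_top (μ := (volume : Measure (EE n)))).ne)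
    (by
      filter_upwards [hne] with x hx
      intro s _
      exact hasDerivAt_rot hf hij x hx s)
  have hconst : (fun s => ∫ x in Metric.ball (0 : EE n) 1, f (rl i j s x)) =
      fun _ => ∫ x in Metric.ball (0 : EE n) 1, f x := by
    funext s
    exact integral_rot hij f s
  have h2 := key.2
  rw [hconst] at h2
  have h3 := h2.unique (hasDerivAt_const _ _)
  simpa only [rl_zero] using h3

/-- product rule -/
theorem Lr_mul {f h : EE n → ℝ} (hf : Sm f) (hh : Sm h) (i j : Fin (n + 1)) (x : EE n) :
    Lr i j (fun y => f y * h y) x = Lr i j f x * h x + f x * Lr i j h x := by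
  by_cases hx : x = 0
  · subst hx
    simp [Lr_zero]
  have h1 := (differentiableAt hf hx).hasFDerivAt
  have h2 := (differentiableAt hh hx).hasFDerivAt
  have h3 := (h1.mul h2).fderiv
  have h4 : ∀ k, pd k (fun y => f y * h y) x = pd k f x * h x + f x * pd k h x := by
    intro k
    unfold pd
    have h5 : fderiv ℝ (fun y => f y * h y) x = f x • fderiv ℝ h x + h x • fderiv ℝ f x := h3
    rw [h5]
    simp only [add_apply, smul_apply, smul_eq_mul]
    ring
  unfold Lr
  rw [h4, h4]
  ring

theorem ae_ne : ∀ᵐ x ∂((volume : Measure (EE n)).restrict (Metric.ball (0 : EE n) 1)), x ≠ 0 := by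
  refine ae_restrict_of_ae ?_
  rw [ae_iff]
  simp

theorem integ_congr {f g : EE n → ℝ} (h : ∀ x, x ≠ 0 → f x = g x) : integ f = integ g := by
  unfold integ
  congr 1
  refine integral_congr_ae ?_
  filter_upwards [ae_ne] with x hx
  exact h x hx

theorem goal_C4 (hC1 : Goal_C1) (_ : Goal_C2) (hC3 : Goal_C3) : Goal_C4 := by
  intro n
  obtain ⟨c1, c2, c3, c4, c5, c6, -, -, c9, c10, -, c12⟩ := hC1 n
  obtain ⟨-, -, k3, k4, k5, k6, -⟩ := hC3 n
  have hpart : ∀ i j (f h : EE n → ℝ), Sm f → Sm h →
      integ (fun x => Lr i j f x * h x) = - integ (fun x => f x * Lr i j h x) := by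
    intro i j f h hf hh
    have h1 := integral_Lr (c4 f h hf hh) i j (c10 _ i j (c4 f h hf hh))
    have h2 : (fun x => Lr i j (fun y => f y * h y) x) =
        fun x => Lr i j f x * h x + f x * Lr i j h x := funext (Lr_mul hf hh i j)
    simp only [h2] at h1
    rw [integral_add (integrableOn (c4 _ _ (c10 f i j hf) hh))
      (integrableOn (c4 _ _ hf (c10 h i j hh)))] at h1
    unfold integ
    have : ((n : ℝ) + 1) * ((∫ x in Metric.ball (0 : EE n) 1, Lr i j f x * h x) +
        ∫ x in Metric.ball (0 : EE n) 1, f x * Lr i j h x) = 0 := by rw [h1, mul_zero]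
    linarith
  refine ⟨?_, fun f hf => integrableOn hf, ?_, hpart, ?_, ?_⟩
  · intro f hf
    obtain ⟨C, hC0, hC⟩ := bounded hf
    refine ⟨C, fun x => ?_⟩
    by_cases hx : x = 0
    · rw [hx]
      linarith
    · linarith [hC x hx, abs_nonneg (f 0)]
  · intro i j f hf
    unfold integ
    rw [integral_Lr hf i j (c10 f i j hf), mul_zero]
  · intro i f hf
    have h1 : integ (ed i f) = integ (fun x => ∑ j, Lr j i f x * nn j x) := by
      refine integ_congr fun x hx => ?_
      rw [k5 i f x hf hx]
      exact Finset.sum_congr rfl fun j _ => mul_comm _ _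
    have h2 : integ (fun x => ∑ j, Lr j i f x * nn j x) =
        ∑ j, integ (fun x => Lr j i f x * nn j x) := by
      unfold integ
      rw [integral_finsetSum, Finset.mul_sum]
      intro j _
      exact integrableOn (c4 _ _ (c10 f j i hf) (c12 j))
    have h3 : ∀ j, integ (fun x => Lr j i f x * nn j x) = integ (fun x => -(f x * Lr j i (nn j) x)) := by
      intro j
      rw [hpart j i f (nn j) hf (c12 j)]
      unfold integ
      rw [integral_neg]
      ring
    have h4 : ∑ j, integ (fun x => -(f x * Lr j i (nn j) x)) =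
        integ (fun x => ∑ j, -(f x * Lr j i (nn j) x)) := by
      unfold integ
      rw [integral_finsetSum, Finset.mul_sum]
      intro j _
      exact (integrableOn (c4 _ _ hf (c10 (nn j) j i (c12 j)))).neg
    rw [h1, h2, Finset.sum_congr rfl fun j _ => h3 j, h4]
    have h5 : integ (fun x => ∑ j, -(f x * Lr j i (nn j) x)) =
        integ (fun x => (n : ℝ) * (nn i x * f x)) := by
      refine integ_congr fun x hx => ?_
      have h6 : ∀ j, -(f x * Lr j i (nn j) x) = f x * (nn i x - (if i = j then nn j x else 0)) := by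
        intro j
        rw [k6 j i (nn j) x (c12 j) hx, k3 i j x hx, k3 j j x hx]
        by_cases hij : i = j
        · subst hij
          simp
        · simp only [if_neg hij, if_true]
          ring
      simp only [h6]
      rw [← Finset.mul_sum, Finset.sum_sub_distrib, Finset.sum_ite_eq]
      simp only [Finset.sum_const, Finset.card_univ, Fintype.card_fin, Finset.mem_univ, if_true,
        nsmul_eq_mul]
      push_cast
      ring
    rw [h5]
    unfold integ
    rw [integral_const_mul]
    ring
  · unfold integ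
    have : 0 < ∫ _ in Metric.ball (0 : EE n) 1, (1 : ℝ) := by
      rw [integral_const, smul_eq_mul, mul_one]
      simp only [measureReal_def, Measure.restrict_apply MeasurableSet.univ, Set.univ_inter]
      refine ENNReal.toReal_pos ?_ (measure_ball_lt_top (μ := (volume : Measure (EE n)))).ne
      exact (Metric.measure_ball_pos volume (0 : EE n) one_pos).ne'
    positivity

end Pool.Agent.Helper65.RFn
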