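import Pool.Agent.Helper47.RFn.Alg

/-!
# Project RFn: packet QB (the quadratic form and its polarisation)
-/

namespace Pool.Agent.Helper65.RFn

open Finset Pool.Agent.Helper47.RFn

variable {n : ℕ}

theorem BB_add_left (R S T : T4 n) (a b c d : Fin n) :
    BB (R + S) T a b c d = BB R T a b c d + BB S T a b c d := by
  simp only [BB, Pi.add_apply, add_mul, Finset.sum_add_distrib]

theorem BB_add_right (R S T : T4 n) (a b c d : Fin n) :
    BB T (R + S) a b c d = BB T R a b c d + BB T S a b c d := by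
  simp only [BB, Pi.add_apply, mul_add, Finset.sum_add_distrib]

theorem BB_smul_left (r : ℝ) (R S : T4 n) (a b c d : Fin n) :
    BB (r • R) S a b c d = r * BB R S a b c d := by
  simp only [BB, Pi.smul_apply, smul_eq_mul, Finset.mul_sum, mul_assoc]

theorem BB_smul_right (r : ℝ) (R S : T4 n) (a b c d : Fin n) :
    BB R (r • S) a b c d = r * BB R S a b c d := by
  simp only [BB, Pi.smul_apply, smul_eq_mul, Finset.mul_sum]
  refine Finset.sum_congr rfl fun e _ => Finset.sum_congr rfl fun f _ => ?_
  ring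

theorem ric_alt {R : T4 n} (h : IsCurv R) (e f : Fin n) : ∑ b, R b e b f = Ric R e f := by
  unfold Ric
  refine Finset.sum_congr rfl fun b _ => ?_
  rw [h.a12, h.a34, neg_neg]

/-- the two cross terms agree -/
theorem cross {R : T4 n} (h : IsCurv R) (a c : Fin n) :
    ∑ b, BB R R a b c b = 2 * ∑ b, BB R R a b b c := by
  have hY : ∀ b, BB R R a b b c = ∑ e, ∑ f, R a e b f * R c f b e := by
    intro b
    unfold BB
    refine Finset.sum_congr rfl fun e _ => Finset.sum_congr rfl fun f _ => ?_
    rw [h.pair b e c f]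
  have hX : ∀ b, BB R R a b c b = ∑ e, ∑ f, R a e b f * R c b e f +
      ∑ e, ∑ f, R a e b f * R c f b e := by
    intro b
    unfold BB
    rw [← Finset.sum_add_distrib]
    refine Finset.sum_congr rfl fun e _ => ?_
    rw [← Finset.sum_add_distrib]
    refine Finset.sum_congr rfl fun f _ => ?_
    have h1 : R c e b f = R c b e f + R c f b e := by
      have b1 := h.bian e b c f
      have b2 : R c e b f = - R e c b f := h.a12 c e b f
      have b3 : R e b c f = R c f e b := h.pair e b c f
      have b4 : R c f e b = - R c f b e := h.a34 c f e b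
      have b5 : R b c e f = - R c b e f := h.a12 b c e f
      have b6 : R c e b f = R c e b f := rfl
      linarith
    rw [h1]
    ring
  have hZ : ∑ b, ∑ e, ∑ f, R a e b f * R c b e f = ∑ b, ∑ e, ∑ f, R a e b f * R c f b e := by
    have h1 : ∀ b, ∑ e, ∑ f, R a e b f * R c b e f = ∑ f, ∑ e, R a e b f * R c b e f :=
      fun b => Finset.sum_comm
    have h2 : ∀ f, ∑ e, ∑ b, R a e f b * R c b f e = ∑ b, ∑ e, R a e f b * R c b f e :=
      fun f => Finset.sum_comm
    calc ∑ b, ∑ e, ∑ f, R a e b f * R c b e f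
        = ∑ b, ∑ f, ∑ e, R a e b f * R c b e f := Finset.sum_congr rfl fun b _ => h1 b
      _ = ∑ f, ∑ b, ∑ e, R a e b f * R c b e f := Finset.sum_comm
      _ = ∑ f, ∑ b, ∑ e, R a e f b * R c b f e := by
          refine Finset.sum_congr rfl fun f _ => Finset.sum_congr rfl fun b _ =>
            Finset.sum_congr rfl fun e _ => ?_
          rw [h.a34 a e b f, h.a34 c b e f]
          ring
      _ = ∑ f, ∑ e, ∑ b, R a e f b * R c b f e := Finset.sum_congr rfl fun f _ => (h2 f).symm
  calc ∑ b, BB R R a b c b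
      = ∑ b, (∑ e, ∑ f, R a e b f * R c b e f + ∑ e, ∑ f, R a e b f * R c f b e) :=
        Finset.sum_congr rfl fun b _ => hX b
    _ = ∑ b, ∑ e, ∑ f, R a e b f * R c b e f + ∑ b, ∑ e, ∑ f, R a e b f * R c f b e :=
        Finset.sum_add_distrib
    _ = 2 * ∑ b, ∑ e, ∑ f, R a e b f * R c f b e := by rw [hZ]; ring
    _ = 2 * ∑ b, BB R R a b b c := by
        rw [Finset.sum_congr rfl fun b _ => hY b]

theorem ric_Q {R : T4 n} (h : IsCurv R) : Ric (Q R) = act R (Ric R) := by
  funext a c
  have h1 : Ric (Q R) a c = (∑ b, BB R R a b c b - 2 * ∑ b, BB R R a b b c) +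
      ∑ b, BB R R a c b b := by
    unfold Ric Q
    rw [Finset.mul_sum, ← Finset.sum_sub_distrib, ← Finset.sum_add_distrib]
    refine Finset.sum_congr rfl fun b _ => ?_
    ring
  rw [h1, cross h, sub_self, zero_add]
  unfold BB act
  calc ∑ b, ∑ e, ∑ f, R a e c f * R b e b f
      = ∑ e, ∑ b, ∑ f, R a e c f * R b e b f := Finset.sum_comm
    _ = ∑ e, ∑ f, ∑ b, R a e c f * R b e b f :=
        Finset.sum_congr rfl fun e _ => Finset.sum_comm
    _ = ∑ e, ∑ f, R a e c f * Ric R e f := by
        refine Finset.sum_congr rfl fun e _ => Finset.sum_congr rfl fun f _ => ?_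
        rw [← Finset.mul_sum, ric_alt h]

theorem lam_Q {R : T4 n} (h : IsCurv R) (hn : 1 ≤ n) : lam (Q R) = lam R ^ 2 + sig R := by
  have hn0 : (n : ℝ) ≠ 0 := by
    have : 0 < n := hn
    exact_mod_cast this.ne'
  have h1 : ∑ a, Ric (Q R) a a = ∑ e, ∑ f, Ric R e f ^ 2 := by
    rw [ric_Q h]
    unfold act
    calc ∑ a, ∑ e, ∑ f, R a e a f * Ric R e f
        = ∑ e, ∑ a, ∑ f, R a e a f * Ric R e f := Finset.sum_comm
      _ = ∑ e, ∑ f, ∑ a, R a e a f * Ric R e f :=
          Finset.sum_congr rfl fun e _ => Finset.sum_comm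
      _ = ∑ e, ∑ f, Ric R e f ^ 2 := by
          refine Finset.sum_congr rfl fun e _ => Finset.sum_congr rfl fun f _ => ?_
          rw [← Finset.sum_mul, ric_alt h]
          ring
  have h2 : ∑ e, ∑ f, Ric R e f ^ 2 = ∑ e, ∑ f, Ric0 R e f ^ 2 + n * lam R ^ 2 := by
    have h3 : ∀ e f, Ric R e f ^ 2 = Ric0 R e f ^ 2 +
        (if e = f then 2 * lam R * Ric R e e - lam R ^ 2 else 0) := by
      intro e f
      by_cases hef : e = f
      · subst hef
        simp only [Ric0, Matrix.sub_apply, Matrix.smul_apply, Matrix.one_apply_eq, smul_eq_mul,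
          if_true]
        ring
      · simp only [Ric0, Matrix.sub_apply, Matrix.smul_apply, Matrix.one_apply_ne hef,
          smul_eq_mul, if_neg hef]
        ring
    have h4 : ∑ e, Ric R e e = n * lam R := by
      unfold lam
      field_simp
    calc ∑ e, ∑ f, Ric R e f ^ 2
        = ∑ e, ∑ f, (Ric0 R e f ^ 2 +
          (if e = f then 2 * lam R * Ric R e e - lam R ^ 2 else 0)) :=
          Finset.sum_congr rfl fun e _ => Finset.sum_congr rfl fun f _ => h3 e f
      _ = ∑ e, (∑ f, Ric0 R e f ^ 2 + (2 * lam R * Ric R e e - lam R ^ 2)) := by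
          refine Finset.sum_congr rfl fun e _ => ?_
          rw [Finset.sum_add_distrib]
          congr 1
          rw [Finset.sum_ite_eq]
          simp
      _ = ∑ e, ∑ f, Ric0 R e f ^ 2 + (2 * lam R * ∑ e, Ric R e e - n * lam R ^ 2) := by
          rw [Finset.sum_add_distrib, Finset.sum_sub_distrib, ← Finset.mul_sum]
          simp
      _ = ∑ e, ∑ f, Ric0 R e f ^ 2 + n * lam R ^ 2 := by
          rw [h4]
          ring
  unfold lam sig
  rw [h1, h2]
  unfold lam
  field_simp
  ring

theorem goal_QB : Goal_QB := by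
  intro n
  refine ⟨fun R => ?_, fun R S => ?_, fun R S T => ?_, fun c R S => ?_, fun R S => ?_,
    fun R h => ric_Q h, fun R h hn => lam_Q h hn⟩
  · funext a b c d
    simp only [QQ, Q]
    ring
  · funext a b c d
    simp only [QQ, Q, Pi.add_apply, Pi.smul_apply, smul_eq_mul, BB_add_left, BB_add_right]
    ring
  · funext a b c d
    simp only [QQ, Pi.add_apply, BB_add_left, BB_add_right]
    ring
  · funext a b c' d
    simp only [QQ, Pi.smul_apply, smul_eq_mul, BB_smul_left, BB_smul_right]
    ring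
  · funext a b c d
    simp only [QQ]
    ring

end Pool.Agent.Helper65.RFn
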