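import Pool.Agent.Helper47.RFn.GoalsB

/-!
# Project RFn: packet S3 (the maximum of `lam`)
-/

namespace Pool.Agent.Helper65.RFn

open Finset Pool.Agent.Helper47.RFn

theorem choose_eta {A s Q1 C2 : ℝ} (hs : 0 < s) (hA : 0 ≤ A) (hQ : 0 < Q1) (hC : 0 < C2)
    (h : A * Q1 < 1) : ∃ η : ℝ, 0 < η ∧ (A + C2 * η * s) * (Q1 + η) < 1 := by
  have hd : 0 < A + C2 * s * Q1 + C2 * s := by positivity
  have hη : 0 < (1 - A * Q1) / (2 * (A + C2 * s * Q1 + C2 * s)) :=
    div_pos (by linarith) (by positivity)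
  refine ⟨min 1 ((1 - A * Q1) / (2 * (A + C2 * s * Q1 + C2 * s))), lt_min one_pos hη, ?_⟩
  obtain ⟨η, hηd⟩ : ∃ η, η = min 1 ((1 - A * Q1) / (2 * (A + C2 * s * Q1 + C2 * s))) := ⟨_, rfl⟩
  rw [← hηd]
  have h1 : η ≤ 1 := by rw [hηd]; exact min_le_left _ _
  have h2 : η ≤ (1 - A * Q1) / (2 * (A + C2 * s * Q1 + C2 * s)) := by
    rw [hηd]; exact min_le_right _ _
  have h0 : 0 < η := by rw [hηd]; exact lt_min one_pos hη
  have h3 : η * (A + C2 * s * Q1 + C2 * s) ≤ (1 - A * Q1) / 2 := by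
    rw [le_div_iff₀ (by positivity)] at h2
    linarith
  have h4 : (A + C2 * η * s) * (Q1 + η) = A * Q1 + η * (A + C2 * s * Q1) + C2 * s * η * η := by ring
  have h5 : C2 * s * η * η ≤ C2 * s * η * 1 := mul_le_mul_of_nonneg_left h1 (by positivity)
  nlinarith

theorem goal_S3 (hMP3 : Goal_MP3) (hBDD : Goal_BDD) (hNRB : Goal_NRB) (hPRD : Goal_PRD) :
    Goal_S3 := by
  intro n hn
  obtain ⟨C2, hC2, hN⟩ := hNRB n hn
  refine ⟨C2, hC2, ?_⟩
  intro T F hF hRF t1 Q1 e hQ1 he hpos hQ hE hblow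
  have ht10 : (0 : ℝ) < t1 := t1.2.1
  have hs : 0 < T - t1 := by linarith [t1.2.2]
  have hA : 0 < (2 + C2 * e) * (T - t1) := by positivity
  by_contra hcon
  push Not at hcon
  have hAQ : (2 + C2 * e) * (T - t1) * Q1 < 1 := by
    rw [lt_div_iff₀ hA] at hcon
    linarith
  obtain ⟨η, hη, hη2⟩ := choose_eta hs hA.le hQ1 hC2 hAQ
  -- constants
  obtain ⟨m, hm⟩ : ∃ m : ℝ, m = 2 + C2 * (e + η) := ⟨_, rfl⟩
  have hm0 : 0 < m := by rw [hm]; positivity
  obtain ⟨Q', hQ'⟩ : ∃ Q' : ℝ, Q' = Q1 + η := ⟨_, rfl⟩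
  have hQ'0 : 0 < Q' := by rw [hQ']; positivity
  have hmQ : m * (T - t1) * Q' < 1 := by
    rw [hm, hQ']
    calc (2 + C2 * (e + η)) * (T - t1) * (Q1 + η)
        = ((2 + C2 * e) * (T - t1) + C2 * η * (T - t1)) * (Q1 + η) := by ring
      _ < 1 := hη2
  obtain ⟨c, hc⟩ : ∃ c : ℝ, c = 1 / Q' - m * (T - t1) := ⟨_, rfl⟩
  have hc0 : 0 < c := by
    rw [hc, sub_pos, lt_div_iff₀ hQ'0]
    exact hmQ
  let L : F.B := algebraMap ℝ F.B (1 / Q' + m * t1) - m • F.tt
  have hLev : ∀ z (t : TI T), F.ev z t L = 1 / Q' - m * (t - t1) := by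
    intro z t
    simp only [L, map_sub, map_smul, AlgHom.commutes, hF.tt_ev, smul_eq_mul,
      Algebra.algebraMap_self, RingHom.id_apply]
    ring
  have hLc : ∀ z (t : TI T), c < F.ev z t L := by
    intro z t
    rw [hLev, hc]
    have : m * ((t : ℝ) - t1) < m * (T - t1) := mul_lt_mul_of_pos_left (by linarith [t.2.2]) hm0
    linarith
  have hLH : ∀ a, F.H a L = 0 := by
    intro a
    simp only [L, map_sub, Derivation.map_algebraMap, Derivation.map_smul, hF.tt_H, smul_zero,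
      sub_zero]
  have hLD : F.D L = -(m • (1 : F.B)) := by
    simp only [L, map_sub, Derivation.map_algebraMap, Derivation.map_smul, hF.tt_D, zero_sub]
  have hLHop : F.Hop L = -(m • (1 : F.B)) := by
    unfold FB.Hop FB.Lap
    simp only [hLH, map_zero, Finset.sum_const_zero, sub_zero, hLD]
  have hgg : F.gg F.lam L = 0 := by
    unfold FB.gg
    simp only [hLH, mul_zero, Finset.sum_const_zero]
  obtain ⟨f, hf⟩ : ∃ f : F.B, f = algebraMap ℝ F.B 1 - F.lam * L := ⟨_, rfl⟩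
  have hfev : ∀ z (t : TI T), F.ev z t f = 1 - F.ev z t F.lam * F.ev z t L := by
    intro z t
    rw [hf]
    simp only [map_sub, map_mul, AlgHom.commutes, Algebra.algebraMap_self, RingHom.id_apply]
  obtain ⟨p1, -, p3, p4, -⟩ := (hPRD n T F).1 F.lam L
  have hfHop : F.Hop f = F.lam * (m • (1 : F.B)) - L * F.Hop F.lam := by
    have q3 := ((hPRD n T F).1 (algebraMap ℝ F.B 1) (F.lam * L)).2.2.1
    rw [hf, q3, ((p4 1).2), p1, hLHop, hgg]
    simp only [smul_zero, sub_zero, mul_neg]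
    ring
  have hfHopev : ∀ z (t : TI T), F.ev z t (F.Hop f) =
      m * F.ev z t F.lam - F.ev z t L * F.ev z t (F.Hop F.lam) := by
    intro z t
    rw [hfHop]
    simp only [map_sub, map_mul, map_smul, map_one, smul_eq_mul]
    ring
  -- positivity near `t1`
  have hstart : ∃ δ > 0, ∀ (_ : Unit) z (t : TI T), (t1 : ℝ) < t → (t : ℝ) < t1 + δ →
      0 < F.ev z t f := by
    have hc1 : 0 < 1 - Q1 / Q' := by
      rw [sub_pos, div_lt_one hQ'0, hQ']
      linarith
    have h4 := (hBDD n T F hF.toBase).2.2.2 f t1 (1 - Q1 / Q') (fun z => by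
      rw [hfev, hLev, sub_self, mul_zero, sub_zero]
      have := hQ z
      have h5 : F.ev z t1 F.lam * (1 / Q') ≤ Q1 * (1 / Q') :=
        mul_le_mul_of_nonneg_right this (by positivity)
      have h6 : Q1 * (1 / Q') = Q1 / Q' := by ring
      linarith) ((1 - Q1 / Q') / 2) (by linarith)
    obtain ⟨δ, hδ, hδ2⟩ := h4
    refine ⟨δ, hδ, fun _ z t h1 h2 => ?_⟩
    have := hδ2 z t (by rw [abs_lt]; constructor <;> linarith)
    linarith
  have hmain : ∀ z (t : TI T), (t1 : ℝ) < t → 0 < F.ev z t f := by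
    intro z t ht
    refine hMP3 n T F hF.toBase Unit (fun _ => f) ?_ t1 t ht10.le t.2.2 hstart ?_ () z t ht le_rfl
    · exact (hF.cont f).comp continuous_snd
    · intro _ z' t' h1 _ h3 _
      have hl := hpos z' t' h1.le
      rw [hfHopev]
      have hlL : F.ev z' t' F.lam * F.ev z' t' L = 1 := by
        rw [hfev] at h3
        linarith
      have hLp : 0 < F.ev z' t' L := hc0.trans (hLc z' t')
      have hH := (hN T F hF hRF z' t' hl.le).2.2
      have hE' := hE z' t' h1.le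
      have h5 : F.ev z' t' (F.Hop F.lam) ≤ (2 + C2 * e) * F.ev z' t' F.lam ^ 2 := by
        have := mul_le_mul_of_nonneg_left hE' hC2.le
        nlinarith
      have h6 : F.ev z' t' L * F.ev z' t' (F.Hop F.lam) ≤
          F.ev z' t' L * ((2 + C2 * e) * F.ev z' t' F.lam ^ 2) :=
        mul_le_mul_of_nonneg_left h5 hLp.le
      have h7 : F.ev z' t' L * ((2 + C2 * e) * F.ev z' t' F.lam ^ 2) =
          (2 + C2 * e) * F.ev z' t' F.lam := by
        calc F.ev z' t' L * ((2 + C2 * e) * F.ev z' t' F.lam ^ 2)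
            = (2 + C2 * e) * F.ev z' t' F.lam * (F.ev z' t' F.lam * F.ev z' t' L) := by ring
          _ = _ := by rw [hlL, mul_one]
      have h8 : 0 < C2 * η * F.ev z' t' F.lam := by positivity
      rw [hm]
      nlinarith
  obtain ⟨z, t, ht, hbl⟩ := hblow (1 / c) t1 t1.2.2
  have h1 := hmain z t ht
  rw [hfev] at h1
  have hl := hpos z t ht.le
  have h2 : F.ev z t F.lam * c < 1 := by
    have := mul_lt_mul_of_pos_left (hLc z t) hl
    linarith
  rw [div_lt_iff₀ hc0] at hbl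
  linarith

end Pool.Agent.Helper65.RFn
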